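import Mathlib

/-!
# Transcendence degree of a hypersurface section (MP_7ecdd4_nt)

`q` a prime ideal of `k[s]`, `f ∉ q`, `p` a minimal prime over `q + (f)`: the transcendence degree
drops by at most one (and by at least one).
-/

set_option autoImplicit false

namespace Pool.Agent.H99.RD

open MvPolynomial Set

/-- a prime of height at most one of a polynomial ring -/
theorem trdeg_of_height_le_one {k : Type} [Field k] {n : ℕ} (p : Ideal (MvPolynomial (Fin n) k))
    [hpp : p.IsPrime] (hp : p.height ≤ 1) :
    (n : Cardinal) ≤ Algebra.trdeg k (MvPolynomial (Fin n) k ⧸ p) + 1 := by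
  classical
  have hn : Algebra.trdeg k (MvPolynomial (Fin n) k) = (n : Cardinal) := by
    rw [MvPolynomial.trdeg_of_isDomain]; simp
  by_cases hp0 : p = ⊥
  · subst hp0
    have h1 := trdeg_le_of_injective (R := k)
      (Ideal.Quotient.mkₐ k (⊥ : Ideal (MvPolynomial (Fin n) k))) (by
        intro x y hxy
        simpa [Ideal.Quotient.mkₐ_eq_mk, Ideal.Quotient.eq, sub_eq_zero] using hxy)
    rw [hn] at h1
    exact h1.trans (self_le_add_right _ _)
  obtain ⟨x, hxp, hx⟩ := Ideal.IsPrime.exists_mem_prime_of_ne_bot hpp hp0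
  have hh : p.height = 1 := by
    refine le_antisymm hp ?_
    rw [Order.one_le_iff_ne_zero, ne_eq, Ideal.height_eq_zero_iff_eq_bot]
    exact hp0
  have hpx : p = Ideal.span {x} := p.eq_span_singleton_of_height_eq_one hh hxp hx
  obtain ⟨i, hi⟩ : ∃ i, degreeOf i x ≠ 0 := by
    by_contra hcon
    push Not at hcon
    have hv : x.vars = ∅ := by
      rw [Finset.eq_empty_iff_forall_notMem]
      intro i hi
      exact mem_vars_iff_degreeOf_ne_zero.1 hi (hcon i)
    rw [vars_eq_empty_iff_eq_C] at hv
    have hc : x.coeff 0 ≠ 0 := by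
      intro h0
      rw [h0, map_zero] at hv
      exact hx.ne_zero hv
    apply hx.not_isUnit
    rw [hv]
    exact (isUnit_iff_ne_zero.2 hc).map C
  let y : {j : Fin n // j ≠ i} → MvPolynomial (Fin n) k ⧸ p := fun j => Ideal.Quotient.mk p (X j.1)
  have hy : AlgebraicIndependent k y := by
    rw [algebraicIndependent_iff]
    intro F hF
    have h1 : aeval y F = Ideal.Quotient.mk p (rename Subtype.val F) := by
      have : (aeval y : MvPolynomial {j : Fin n // j ≠ i} k →ₐ[k] _) =
          (Ideal.Quotient.mkₐ k p).comp (rename Subtype.val) := by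
        apply MvPolynomial.algHom_ext
        intro j
        simp [y]
      rw [this]
      rfl
    rw [h1, Ideal.Quotient.eq_zero_iff_mem, hpx, Ideal.mem_span_singleton] at hF
    obtain ⟨c, hc⟩ := hF
    by_contra hF0
    have hr0 : rename Subtype.val F ≠ (0 : MvPolynomial (Fin n) k) := by
      intro h0
      exact hF0 (rename_injective _ Subtype.val_injective (by rw [h0, map_zero]))
    have hc0 : c ≠ 0 := by
      rintro rfl
      exact hr0 (by rw [hc, mul_zero])
    have hd : degreeOf i (rename Subtype.val F : MvPolynomial (Fin n) k) = 0 := by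
      by_contra hne
      have := mem_vars_iff_degreeOf_ne_zero.2 hne
      have h3 := vars_rename (Subtype.val : {j : Fin n // j ≠ i} → Fin n) F this
      rw [Finset.mem_image] at h3
      obtain ⟨j, -, hj⟩ := h3
      exact j.2 hj
    rw [hc, degreeOf_mul_eq hx.ne_zero hc0] at hd
    exact hi (by omega)
  have h1 := hy.cardinalMk_le_trdeg
  have h2 : Cardinal.mk {j : Fin n // j ≠ i} + 1 = n := by
    rw [Cardinal.mk_fintype]
    have : Fintype.card {j : Fin n // j ≠ i} + 1 = n := by
      have := i.pos
      rw [Fintype.card_subtype_compl, Fintype.card_fin, Fintype.card_unique]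
      omega
    exact_mod_cast this
  rw [← h2]
  gcongr

/-- the transcendence degree of the quotient by a minimal prime over a principal ideal -/
theorem trdeg_le_of_minimal {k B : Type} [Field k] [CommRing B] [IsDomain B] [Algebra k B]
    [Algebra.FiniteType k B] (b : B) (P : Ideal B) (hP : P ∈ (Ideal.span {b}).minimalPrimes) :
    Algebra.trdeg k B ≤ Algebra.trdeg k (B ⧸ P) + 1 := by
  have hPp : P.IsPrime := hP.1.1
  have hnoeth : IsNoetherianRing B := Algebra.FiniteType.isNoetherianRing k B
  obtain ⟨n, g, hginj, hgint⟩ := exists_integral_inj_algHom_of_fg k B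
  let _ : Algebra (MvPolynomial (Fin n) k) B := g.toRingHom.toAlgebra
  have hint : Algebra.IsIntegral (MvPolynomial (Fin n) k) B := ⟨hgint⟩
  have hfs : FaithfulSMul (MvPolynomial (Fin n) k) B :=
    (faithfulSMul_iff_algebraMap_injective _ _).2 hginj
  have htow : IsScalarTower k (MvPolynomial (Fin n) k) B :=
    IsScalarTower.of_algebraMap_eq fun c => (g.commutes c).symm
  set p1 : Ideal (MvPolynomial (Fin n) k) := P.comap (algebraMap (MvPolynomial (Fin n) k) B)
    with hp1
  have hp1p : p1.IsPrime := Ideal.comap_isPrime _ _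
  have hlo : P.LiesOver p1 := ⟨rfl⟩
  have h1 : P.height ≤ 1 := Ideal.height_le_one_of_isPrincipal_of_mem_minimalPrimes _ P hP
  have h2 : p1.height ≤ 1 := by
    have := Ideal.height_eq_height_add_of_liesOver_of_hasGoingDown p1 P
    rw [this] at h1
    exact le_self_add.trans h1
  have h3 := trdeg_of_height_le_one p1 h2
  have h4 : Algebra.trdeg k B = (n : Cardinal) := by
    have h5 : Algebra.trdeg (MvPolynomial (Fin n) k) B = 0 :=
      trdeg_eq_zero_iff.2 inferInstance
    have h6 := trdeg_add_eq k (MvPolynomial (Fin n) k) (A := B)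
    rw [← h6, h5, add_zero, MvPolynomial.trdeg_of_isDomain]
    simp
  rw [h4]
  refine h3.trans ?_
  gcongr
  let ψ : MvPolynomial (Fin n) k ⧸ p1 →ₐ[k] B ⧸ P :=
    Ideal.quotientMapₐ P g (le_of_eq rfl)
  apply trdeg_le_of_injective ψ
  exact Ideal.quotientMap_injective (I := P) (f := (g : MvPolynomial (Fin n) k →+* B))

/-- **dimension of a hypersurface section** -/
theorem kpi {k s : Type} [Field k] [Finite s] (q : Ideal (MvPolynomial s k)) [q.IsPrime]
    (f : MvPolynomial s k) (p : Ideal (MvPolynomial s k))
    (hp : p ∈ (q ⊔ Ideal.span {f}).minimalPrimes) :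
    Algebra.trdeg k (MvPolynomial s k ⧸ q) ≤ Algebra.trdeg k (MvPolynomial s k ⧸ p) + 1 := by
  have hpp : p.IsPrime := hp.1.1
  have hqp : q ≤ p := le_sup_left.trans hp.1.2
  set P : Ideal (MvPolynomial s k ⧸ q) := p.map (Ideal.Quotient.mk q) with hPdef
  have hker : RingHom.ker (Ideal.Quotient.mk q) ≤ p := by rw [Ideal.mk_ker]; exact hqp
  have hPp : P.IsPrime := Ideal.map_isPrime_of_surjective Ideal.Quotient.mk_surjective hker
  have hcm : P.comap (Ideal.Quotient.mk q) = p := by
    rw [hPdef, Ideal.comap_map_of_surjective _ Ideal.Quotient.mk_surjective, sup_eq_left]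
    rw [← RingHom.ker_eq_comap_bot]
    exact hker
  have hmin : P ∈ (Ideal.span {Ideal.Quotient.mk q f}).minimalPrimes := by
    refine ⟨⟨hPp, ?_⟩, ?_⟩
    · rw [Ideal.span_singleton_le_iff_mem, ← Ideal.mem_comap, hcm]
      exact hp.1.2 (Ideal.mem_sup_right (Ideal.mem_span_singleton_self _))
    · rintro Q ⟨hQp, hQ⟩ hQP
      have h1 : p ≤ Q.comap (Ideal.Quotient.mk q) := by
        apply hp.2
        · refine ⟨Ideal.comap_isPrime _ _, ?_⟩
          apply sup_le
          · intro x hx
            rw [Ideal.mem_comap, Ideal.Quotient.eq_zero_iff_mem.2 hx]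
            exact Ideal.zero_mem _
          · rw [Ideal.span_singleton_le_iff_mem, Ideal.mem_comap]
            exact hQ (Ideal.mem_span_singleton_self _)
        · intro x hx
          rw [← hcm]
          exact hQP hx
      rw [hPdef, Ideal.map_le_iff_le_comap]
      exact h1
  have h1 := trdeg_le_of_minimal (k := k) (Ideal.Quotient.mk q f) P hmin
  have h2 : Algebra.trdeg k ((MvPolynomial s k ⧸ q) ⧸ P) =
      Algebra.trdeg k (MvPolynomial s k ⧸ p) :=
    (DoubleQuot.quotQuotEquivQuotOfLEₐ k hqp).trdeg_eq
  rw [h2] at h1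
  exact h1

/-- a surjection of domains with nonzero kernel decreases the transcendence degree -/
theorem trdeg_add_one_le {k B C : Type} [Field k] [CommRing B] [IsDomain B] [CommRing C]
    [IsDomain C] [Algebra k B] [Algebra k C] (f : B →ₐ[k] C) (hf : Function.Surjective f) {t : B}
    (ht : t ≠ 0) (hft : f t = 0) : Algebra.trdeg k C + 1 ≤ Algebra.trdeg k B := by
  obtain ⟨ι, y, hy⟩ := exists_isTranscendenceBasis' k C
  rw [← hy.cardinalMk_eq_trdeg]
  choose x hx using fun i => hf (y i)
  have hxy : (f : B → C) ∘ x = y := funext hx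
  have hxi : AlgebraicIndependent k x := by
    apply AlgebraicIndependent.of_comp f
    rw [hxy]; exact hy.1
  have htr : Transcendental (Algebra.adjoin k (range x)) t := by
    intro halg
    obtain ⟨q, hq0, hq⟩ := halg.exists_nonzero_coeff_and_aeval_eq_zero
      (mem_nonZeroDivisors_of_ne_zero ht)
    apply hq0
    have h1 : f (algebraMap (Algebra.adjoin k (range x)) B (q.coeff 0)) = 0 := by
      rw [Polynomial.aeval_eq_sum_range, Finset.sum_range_succ'] at hq
      have h2 := congrArg f hq
      rw [map_add, map_sum, map_zero] at h2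
      have h3 : ∀ i ∈ Finset.range q.natDegree, f (q.coeff (i + 1) • t ^ (i + 1)) = 0 := by
        intro i _
        rw [Algebra.smul_def, map_mul, map_pow, hft]
        simp
      rw [Finset.sum_eq_zero h3, zero_add, pow_zero, Algebra.smul_def, mul_one] at h2
      exact h2
    obtain ⟨p, hp⟩ : ∃ p : MvPolynomial ι k, MvPolynomial.aeval x p = (q.coeff 0 : B) := by
      have h6 : ∀ z ∈ Algebra.adjoin k (range x), ∃ p : MvPolynomial ι k,
          MvPolynomial.aeval x p = z := by
        intro z hz
        rw [Algebra.adjoin_range_eq_range_aeval] at hz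
        exact hz
      exact h6 _ (q.coeff 0).2
    have h4 : MvPolynomial.aeval y p = 0 := by
      rw [← h1]
      change _ = f (q.coeff 0 : B)
      rw [← hp, ← hxy]
      have h7 : (f.comp (MvPolynomial.aeval x)) = MvPolynomial.aeval (f ∘ x) := by
        rw [MvPolynomial.comp_aeval]; rfl
      rw [← h7]
      rfl
    have h5 : p = 0 := (AlgebraicIndependent.eq_zero_of_aeval_eq_zero hy.1) p h4
    apply Subtype.ext
    rw [← hp, h5, map_zero]
    rfl
  have hopt := (hxi.option_iff_transcendental t).mpr htr
  have := hopt.cardinalMk_le_trdeg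
  rwa [Cardinal.mk_option] at this

/-- **strict inclusions of primes decrease the transcendence degree** -/
theorem drop {k s : Type} [Field k] (q p : Ideal (MvPolynomial s k)) [q.IsPrime] [p.IsPrime]
    (h : q < p) :
    Algebra.trdeg k (MvPolynomial s k ⧸ p) + 1 ≤ Algebra.trdeg k (MvPolynomial s k ⧸ q) := by
  obtain ⟨t, htp, htq⟩ := Set.exists_of_ssubset h
  exact trdeg_add_one_le (Ideal.Quotient.factorₐ k h.le)
    (Ideal.Quotient.factor_surjective h.le) (t := Ideal.Quotient.mk q t)
    (fun h0 => htq (Ideal.Quotient.eq_zero_iff_mem.1 h0)) (by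
      rw [Ideal.Quotient.factorₐ_apply_mk]
      exact Ideal.Quotient.eq_zero_iff_mem.2 htp)

end Pool.Agent.H99.RD
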