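import Mathlib

/-!
# Counting primes over an ideal generated in degree one (MP_7ecdd4_nt)
-/

set_option autoImplicit false

namespace Pool.Agent.H99.RD

open Finset

variable {k : Type} [Field k] {R : Type} [CommRing R] [Algebra k R]

/-- the dimension of the image of `V S` in `R ⧸ I` -/
noncomputable def hil (V : ℕ → Submodule k R) (I : Ideal R) (S : ℕ) : ℕ :=
  Module.finrank k ((V S).map (Ideal.Quotient.mkₐ k I).toLinearMap)

/-- finite, monotone, exhausting, multiplicative filtrations -/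
structure Filt (V : ℕ → Submodule k R) : Prop where
  fin : ∀ S, Module.Finite k (V S)
  mono : Monotone V
  mul : ∀ {m n : ℕ} {a b : R}, a ∈ V m → b ∈ V n → a * b ∈ V (m + n)
  ex : ∀ a : R, ∃ m, a ∈ V m

/-- the step (6.4) -/
theorem hil_step {V : ℕ → Submodule k R} (hV : Filt V) (q : Ideal R) [q.IsPrime] {f : R}
    (hf : f ∈ V 1) (hfq : f ∉ q) (S : ℕ) :
    hil V (q ⊔ Ideal.span {f}) (S + 1) + hil V q S ≤ hil V q (S + 1) := by
  set Q : Ideal R := q ⊔ Ideal.span {f} with hQ
  have hqQ : q ≤ Q := le_sup_left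
  have hfQ : f ∈ Q := Ideal.mem_sup_right (Ideal.mem_span_singleton_self _)
  set W : Submodule k (R ⧸ q) := (V (S + 1)).map (Ideal.Quotient.mkₐ k q).toLinearMap with hW
  have hWfin : Module.Finite k W := by
    have := hV.fin (S + 1)
    infer_instance
  let σ : (R ⧸ q) →ₗ[k] (R ⧸ Q) := (Ideal.Quotient.factorₐ k hqQ).toLinearMap
  have h1 : (V (S + 1)).map (Ideal.Quotient.mkₐ k Q).toLinearMap = W.map σ := by
    rw [hW, ← Submodule.map_comp]
    congr 1
  let τ : W →ₗ[k] (R ⧸ Q) := σ.domRestrict W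
  have h2 : LinearMap.range τ = W.map σ := by
    rw [LinearMap.range_domRestrict]
  have h3 := LinearMap.finrank_range_add_finrank_ker τ
  have h4 : hil V q S ≤ Module.finrank k (LinearMap.ker τ) := by
    unfold hil
    set W' : Submodule k (R ⧸ q) := (V S).map (Ideal.Quotient.mkₐ k q).toLinearMap with hW'
    have hmem : ∀ w ∈ W', Ideal.Quotient.mk q f * w ∈ W := by
      intro w hw
      obtain ⟨v, hv, rfl⟩ := hw
      refine ⟨f * v, ?_, ?_⟩
      · have := hV.mul hf hv
        rwa [add_comm] at this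
      · simp
    let μ : W' →ₗ[k] W := LinearMap.codRestrict W
      ((LinearMap.mulLeft k (Ideal.Quotient.mk q f)).domRestrict W') (fun w => hmem w.1 w.2)
    have hker : ∀ w, μ w ∈ LinearMap.ker τ := by
      intro w
      rw [LinearMap.mem_ker]
      change σ (Ideal.Quotient.mk q f * w.1) = 0
      obtain ⟨v, hv⟩ := Ideal.Quotient.mk_surjective w.1
      rw [← hv, ← map_mul]
      change Ideal.Quotient.factorₐ k hqQ (Ideal.Quotient.mk q (f * v)) = 0
      rw [Ideal.Quotient.factorₐ_apply_mk, Ideal.Quotient.eq_zero_iff_mem]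
      exact Ideal.mul_mem_right _ _ hfQ
    let μ' : W' →ₗ[k] LinearMap.ker τ := LinearMap.codRestrict _ μ hker
    apply LinearMap.finrank_le_finrank_of_injective (f := μ')
    rw [injective_iff_map_eq_zero]
    intro w hw
    have h5 : Ideal.Quotient.mk q f * w.1 = 0 := by
      exact congrArg (fun z : LinearMap.ker τ => ((z : W) : R ⧸ q)) hw
    rcases mul_eq_zero.1 h5 with h6 | h6
    · exact absurd (Ideal.Quotient.eq_zero_iff_mem.1 h6) hfq
    · exact Subtype.ext h6
  have h5 : hil V Q (S + 1) = Module.finrank k (LinearMap.range τ) := by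
    unfold hil
    rw [h1, h2]
  have h6 : hil V q (S + 1) = Module.finrank k W := rfl
  rw [h5, h6]
  omega

/-- the step (6.5) -/
theorem hil_sum {V : ℕ → Submodule k R} (hV : Filt V) (I : Ideal R) (P : Finset (Ideal R))
    (hP : ∀ p ∈ P, p.IsPrime ∧ I ≤ p) (hinc : ∀ p ∈ P, ∀ p' ∈ P, p ≤ p' → p = p') :
    ∃ c : ℕ, ∀ S, ∑ p ∈ P, hil V p S ≤ hil V I (S + c) := by
  classical
  have hg : ∀ p ∈ P, ∃ g : R, g ∉ p ∧ ∀ p' ∈ P, p' ≠ p → g ∈ p' := by
    intro p hp
    have hpp := (hP p hp).1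
    have h1 : ¬ (∏ p' ∈ P.erase p, p') ≤ p := by
      intro h
      obtain ⟨p', hp', hle⟩ := (Ideal.IsPrime.prod_le hpp).1 h
      rw [mem_erase] at hp'
      exact hp'.1 (hinc p' hp'.2 p hp hle)
    obtain ⟨g, hg, hgp⟩ := SetLike.not_le_iff_exists.1 h1
    refine ⟨g, hgp, fun p' hp' hne => ?_⟩
    exact (Ideal.prod_le_inf.trans (Finset.inf_le (mem_erase.2 ⟨hne, hp'⟩))) hg
  choose! g hg1 hg2 using hg
  choose m hm using hV.ex
  obtain ⟨c, hc⟩ : ∃ c, ∀ p ∈ P, m (g p) ≤ c := ⟨P.sup (fun p => m (g p)), fun p hp =>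
    Finset.le_sup (f := fun p => m (g p)) hp⟩
  refine ⟨c, fun S => ?_⟩
  have hgc : ∀ p ∈ P, g p ∈ V c := fun p hp => hV.mono (hc p hp) (hm _)
  -- bases
  have hb : ∀ p : Ideal R, ∃ b : Fin (hil V p S) → R, (∀ i, b i ∈ V S) ∧
      LinearIndependent k (fun i => Ideal.Quotient.mkₐ k p (b i)) := by
    intro p
    have := hV.fin S
    let W := (V S).map (Ideal.Quotient.mkₐ k p).toLinearMap
    let B : Module.Basis (Fin (hil V p S)) k W := Module.finBasis k W
    have h1 : ∀ i, ∃ v ∈ V S, (Ideal.Quotient.mkₐ k p).toLinearMap v = (B i : R ⧸ p) :=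
      fun i => (B i).2
    choose v hv1 hv2 using h1
    refine ⟨v, hv1, ?_⟩
    have h2 := B.linearIndependent.map' W.subtype W.ker_subtype
    have h3 : (fun i => Ideal.Quotient.mkₐ k p (v i)) = W.subtype ∘ B := by
      funext i
      exact hv2 i
    rw [h3]
    exact h2
  choose b hb1 hb2 using hb
  have := hV.fin (S + c)
  set W := (V (S + c)).map (Ideal.Quotient.mkₐ k I).toLinearMap with hW
  let w : (Σ p : {p // p ∈ P}, Fin (hil V p.1 S)) → W := fun x =>
    ⟨Ideal.Quotient.mkₐ k I (g x.1.1 * b x.1.1 x.2), ⟨g x.1.1 * b x.1.1 x.2, by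
      have := hV.mul (hgc _ x.1.2) (hb1 x.1.1 x.2)
      rwa [add_comm] at this, rfl⟩⟩
  have hw : LinearIndependent k w := by
    rw [Fintype.linearIndependent_iff]
    intro a ha
    have h1 : (∑ x, a x • (g x.1.1 * b x.1.1 x.2)) ∈ I := by
      rw [← Ideal.Quotient.eq_zero_iff_mem]
      have h2 := congrArg (W.subtype) ha
      rw [map_sum, map_zero] at h2
      change (Ideal.Quotient.mkₐ k I) _ = 0
      rw [map_sum, ← h2]
      refine Finset.sum_congr rfl fun x _ => ?_
      rw [map_smul, map_smul]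
      rfl
    rintro ⟨p, i⟩
    have h2 : (∑ i : Fin (hil V p.1 S), a ⟨p, i⟩ • (g p.1 * b p.1 i)) ∈ p.1 := by
      have h3 := (hP p.1 p.2).2 h1
      rw [Fintype.sum_sigma, ← Finset.add_sum_erase _ _ (mem_univ p)] at h3
      refine ((Submodule.add_mem_iff_left p.1 ?_).1 h3)
      refine Submodule.sum_mem _ fun p' hp' => Submodule.sum_mem _ fun i _ => ?_
      rw [Algebra.smul_def]
      refine Ideal.mul_mem_left _ _ (Ideal.mul_mem_right _ _ ?_)
      exact hg2 p'.1 p'.2 p.1 p.2 (fun h => (mem_erase.1 hp').1 (Subtype.ext h.symm))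
    have h3 : g p.1 * ∑ i, a ⟨p, i⟩ • b p.1 i ∈ p.1 := by
      rw [Finset.mul_sum]
      simp only [mul_smul_comm]
      exact h2
    have h4 := ((hP p.1 p.2).1.mem_or_mem h3).resolve_left (hg1 p.1 p.2)
    have h5 : ∑ i, a ⟨p, i⟩ • Ideal.Quotient.mkₐ k p.1 (b p.1 i) = 0 := by
      rw [← Ideal.Quotient.eq_zero_iff_mem] at h4
      change (Ideal.Quotient.mkₐ k p.1) _ = 0 at h4
      rw [map_sum] at h4
      simpa using h4
    exact Fintype.linearIndependent_iff.1 (hb2 p.1) (fun i => a ⟨p, i⟩) h5 i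
  have h1 := hw.fintype_card_le_finrank
  rw [Fintype.card_sigma] at h1
  simp only [Fintype.card_fin] at h1
  rw [Finset.sum_coe_sort P (fun p => hil V p S)] at h1
  exact h1

/-- `q` is a prime with `d q = e + j` contained in all primes of `PP'` -/
theorem count {V : ℕ → Submodule k R} (hV : Filt V) [IsNoetherianRing R] (d : Ideal R → ℕ)
    (hd1 : ∀ q p : Ideal R, q.IsPrime → p.IsPrime → q < p → d p < d q)
    (hd2 : ∀ (q p : Ideal R) (f : R), q.IsPrime → f ∉ q →
      p ∈ (q ⊔ Ideal.span {f}).minimalPrimes → d q ≤ d p + 1)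
    (F : Set R) (hF : ∀ f ∈ F, f ∈ V 1) (PP : Finset (Ideal R)) (e : ℕ)
    (hPP : ∀ p ∈ PP, p.IsPrime ∧ Ideal.span F ≤ p ∧ d p = e)
    (hmin : ∀ p ∈ PP, ∀ q : Ideal R, q.IsPrime → Ideal.span F ≤ q → q ≤ p → q = p)
    (K : ℝ) (hK0 : 0 ≤ K) (hK : ∀ p ∈ PP, ∀ S : ℕ, K * (S : ℝ) ^ e / e.factorial ≤ hil V p S)
    (j : ℕ) : ∀ q : Ideal R, q.IsPrime → d q = e + j → ∀ PP' ⊆ PP, (∀ p ∈ PP', q ≤ p) →
      ∃ c : ℕ, ∀ S : ℕ, (PP'.card : ℝ) * K * (S : ℝ) ^ (e + j) / (e + j).factorial ≤
        hil V q (S + c) := by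
  classical
  induction j with
  | zero =>
    intro q hq hdq PP' hPP' hle
    refine ⟨0, fun S => ?_⟩
    have h1 : PP' ⊆ {q} := by
      intro p hp
      rw [mem_singleton]
      by_contra hne
      have := hd1 q p hq (hPP p (hPP' hp)).1 (lt_of_le_of_ne (hle p hp) (Ne.symm hne))
      have h2 := (hPP p (hPP' hp)).2.2
      omega
    rcases (Finset.subset_singleton_iff.1 h1) with h | h
    · rw [h]
      simp
    · have hq' : q ∈ PP := hPP' (by rw [h]; exact mem_singleton_self _)
      rw [h]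
      simpa using hK q hq' S
  | succ j ih =>
    intro q hq hdq PP' hPP' hle
    rcases PP'.eq_empty_or_nonempty with h0 | ⟨p0, hp0⟩
    · refine ⟨0, fun S => ?_⟩
      rw [h0]
      simp
    have hIq : ¬ Ideal.span F ≤ q := by
      intro h
      have := hmin p0 (hPP' hp0) q hq h (hle p0 hp0)
      have h2 := (hPP p0 (hPP' hp0)).2.2
      rw [← this] at h2
      omega
    obtain ⟨f, hfF, hfq⟩ : ∃ f ∈ F, f ∉ q := by
      by_contra hcon
      push Not at hcon
      exact hIq (Ideal.span_le.2 hcon)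
    set Q := q ⊔ Ideal.span {f} with hQ
    have hQp : ∀ p ∈ PP', Q ≤ p := by
      intro p hp
      refine sup_le (hle p hp) ?_
      rw [Ideal.span_singleton_le_iff_mem]
      exact (hPP p (hPP' hp)).2.1 (Ideal.subset_span hfF)
    have hch : ∀ p ∈ PP', ∃ r ∈ Q.minimalPrimes, r ≤ p := by
      intro p hp
      have := (hPP p (hPP' hp)).1
      exact Ideal.exists_minimalPrimes_le (hQp p hp)
    choose! r hr hrp using hch
    set QQ : Finset (Ideal R) := PP'.image r with hQQ
    have hQQm : ∀ s ∈ QQ, s ∈ Q.minimalPrimes := by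
      intro s hs
      obtain ⟨p, hp, rfl⟩ := mem_image.1 hs
      exact hr p hp
    have hQQd : ∀ s ∈ QQ, d s = e + j := by
      intro s hs
      have h1 := hQQm s hs
      have h2 := hd2 q s f hq hfq h1
      have h3 : q < s := lt_of_le_of_ne (le_sup_left.trans h1.1.2) (by
        intro h
        apply hfq
        rw [h]
        exact h1.1.2 (Ideal.mem_sup_right (Ideal.mem_span_singleton_self _)))
      have h4 := hd1 q s hq h1.1.1 h3
      omega
    have hih : ∀ s ∈ QQ, ∃ c : ℕ, ∀ S : ℕ,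
        (((PP'.filter (fun p => r p = s)).card : ℕ) : ℝ) * K * (S : ℝ) ^ (e + j) /
          (e + j).factorial ≤ hil V s (S + c) := by
      intro s hs
      refine ih s (hQQm s hs).1.1 (hQQd s hs) _ ((filter_subset _ _).trans hPP') ?_
      intro p hp
      rw [mem_filter] at hp
      rw [← hp.2]
      exact hrp p hp.1
    choose! c hc using hih
    obtain ⟨c0, hc0⟩ := hil_sum hV Q QQ (fun s hs => (hQQm s hs).1) (by
      intro s hs s' hs' hle'
      have := (hQQm s' hs').2 (hQQm s hs).1 hle'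
      exact le_antisymm hle' this)
    set c1 := QQ.sup c with hc1
    have hmono : ∀ (I : Ideal R) (m n : ℕ), m ≤ n → hil V I m ≤ hil V I n := by
      intro I m n hmn
      unfold hil
      have := hV.fin n
      exact Submodule.finrank_mono (Submodule.map_mono (hV.mono hmn))
    have hstep : ∀ S : ℕ, (hil V q (S + (c1 + c0)) : ℝ) +
        (PP'.card : ℝ) * K * ((S + 1 : ℕ) : ℝ) ^ (e + j) / (e + j).factorial ≤
          hil V q (S + 1 + (c1 + c0)) := by
      intro S
      have h1 := hil_step hV q (hF f hfF) hfq (S + (c1 + c0))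
      have h2 := hc0 (S + 1 + c1)
      have h3 : ((PP'.card : ℝ)) * K * ((S + 1 : ℕ) : ℝ) ^ (e + j) / (e + j).factorial ≤
          ((∑ s ∈ QQ, hil V s (S + 1 + c1) : ℕ) : ℝ) := by
        have h4 : PP'.card = ∑ s ∈ QQ, (PP'.filter (fun p => r p = s)).card :=
          card_eq_sum_card_image r PP'
        rw [h4]
        push_cast
        rw [Finset.sum_mul, Finset.sum_mul, Finset.sum_div]
        refine Finset.sum_le_sum fun s hs => ?_
        refine (by exact_mod_cast hc s hs (S + 1) : _ ≤ (hil V s (S + 1 + c s) : ℝ)).trans ?_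
        exact_mod_cast hmono s _ _ (by
          have := Finset.le_sup (f := c) hs
          omega)
      have h5 : ((∑ s ∈ QQ, hil V s (S + 1 + c1) : ℕ) : ℝ) ≤
          (hil V Q (S + 1 + c1 + c0) : ℝ) := by exact_mod_cast h2
      have h6 : (hil V Q (S + (c1 + c0) + 1) : ℝ) + hil V q (S + (c1 + c0)) ≤
          hil V q (S + (c1 + c0) + 1) := by exact_mod_cast h1
      have e1 : S + 1 + c1 + c0 = S + (c1 + c0) + 1 := by ring
      have e2 : S + 1 + (c1 + c0) = S + (c1 + c0) + 1 := by ring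
      rw [e1] at h5
      rw [e2]
      linarith
    have hbin : ∀ (x : ℝ), 0 ≤ x → (x + 1) ^ (e + j + 1) ≤
        x ^ (e + j + 1) + (e + j + 1 : ℕ) * (x + 1) ^ (e + j) := by
      intro x hx
      have h1 := one_add_mul_le_pow (a := -(1 / (x + 1))) (by
        have : 1 / (x + 1) ≤ 1 := by
          rw [div_le_one (by linarith)]; linarith
        linarith) (e + j + 1)
      have hx1 : (0 : ℝ) < x + 1 := by linarith
      have h2 : (1 + -(1 / (x + 1))) = x / (x + 1) := by field_simp; ring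
      rw [h2, div_pow] at h1
      have h3 : (0 : ℝ) < (x + 1) ^ (e + j + 1) := by positivity
      have h4 := mul_le_mul_of_nonneg_right h1 h3.le
      rw [div_mul_cancel₀ _ h3.ne'] at h4
      have h5 : (1 + ((e + j + 1 : ℕ) : ℝ) * -(1 / (x + 1))) * (x + 1) ^ (e + j + 1) =
          (x + 1) ^ (e + j + 1) - (e + j + 1 : ℕ) * (x + 1) ^ (e + j) := by
        rw [pow_succ]
        field_simp
        ring
      linarith
    refine ⟨c1 + c0, fun S => ?_⟩
    induction S with
    | zero =>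
      have : ((0 : ℕ) : ℝ) ^ (e + (j + 1)) = 0 := by
        rw [Nat.cast_zero]; exact zero_pow (by omega)
      rw [this, mul_zero, zero_div]
      exact Nat.cast_nonneg _
    | succ S ihS =>
      have h1 := hstep S
      have h2 := hbin (S : ℝ) (Nat.cast_nonneg _)
      have hfac : (((e + (j + 1)).factorial : ℕ) : ℝ) =
          ((e + j + 1 : ℕ) : ℝ) * ((e + j).factorial : ℝ) := by
        rw [show e + (j + 1) = (e + j) + 1 by ring, Nat.factorial_succ]
        push_cast; ring
      rw [hfac] at ihS ⊢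
      have hf1 : (0 : ℝ) < ((e + j + 1 : ℕ) : ℝ) := by positivity
      have hf2 : (0 : ℝ) < ((e + j).factorial : ℝ) := by positivity
      have h3 : (PP'.card : ℝ) * K * ((S + 1 : ℕ) : ℝ) ^ (e + (j + 1)) /
          (((e + j + 1 : ℕ) : ℝ) * ((e + j).factorial : ℝ)) ≤
          (PP'.card : ℝ) * K * (S : ℝ) ^ (e + (j + 1)) /
          (((e + j + 1 : ℕ) : ℝ) * ((e + j).factorial : ℝ)) +
          (PP'.card : ℝ) * K * ((S + 1 : ℕ) : ℝ) ^ (e + j) / (e + j).factorial := by
        have h4 : (PP'.card : ℝ) * K * ((S + 1 : ℕ) : ℝ) ^ (e + j) / (e + j).factorial =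
            (PP'.card : ℝ) * K * (((e + j + 1 : ℕ) : ℝ) * ((S + 1 : ℕ) : ℝ) ^ (e + j)) /
          (((e + j + 1 : ℕ) : ℝ) * ((e + j).factorial : ℝ)) := by
          field_simp
        rw [h4, ← add_div, ← mul_add]
        gcongr
        have h5 : ((S + 1 : ℕ) : ℝ) = (S : ℝ) + 1 := by push_cast; ring
        rw [h5]
        exact h2
      linarith

end Pool.Agent.H99.RD
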