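import Pool.Agent.H99.RD.KPI
import Pool.Agent.H99.RD.Count

/-!
# Primes over an ideal generated in bidegree (A, B) of `ℚ[t₁, …, t_u, Y]` (MP_7ecdd4_nt)
-/

set_option autoImplicit false

namespace Pool.Agent.H99.RD

open MvPolynomial Finset Filter

/-- `ℚ[t₁, …, t_u, Y]`, the variable `Y` is `none` -/
abbrev RR (u : ℕ) := MvPolynomial (Option (Fin u)) ℚ

/-- exponents of total degree at most `a` in the `t` and at most `b` in `Y` -/
def box (u a b : ℕ) : Set (Option (Fin u) →₀ ℕ) := {m | ∑ i, m (some i) ≤ a ∧ m none ≤ b}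

/-- polynomials of degree at most `a` in the `t` and at most `b` in `Y` -/
noncomputable def WW (u a b : ℕ) : Submodule ℚ (RR u) := restrictSupport ℚ (box u a b)

/-- exponents of total degree at most `a` -/
def simplex (ι : Type) [Fintype ι] (a : ℕ) : Set (ι →₀ ℕ) := {m | ∑ i, m i ≤ a}

theorem simplex_finite (ι : Type) [Fintype ι] (a : ℕ) : (simplex ι a).Finite := by
  classical
  apply (Set.finite_Iic (Finsupp.equivFunOnFinite.symm (fun _ : ι => a))).subset
  intro m hm i
  rw [Finsupp.equivFunOnFinite_symm_apply_apply]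
  exact (Finset.single_le_sum (f := fun i => m i) (fun _ _ => Nat.zero_le _) (mem_univ i)).trans hm

theorem card_simplex (ι : Type) [Fintype ι] (a : ℕ) :
    Nat.card (simplex ι a) = (a + Fintype.card ι).choose (Fintype.card ι) := by
  classical
  let e : simplex ι a ≃ ((univ : Finset (Option ι)).finsuppAntidiag a) :=
    { toFun := fun m => ⟨Finsupp.equivFunOnFinite.symm
        (fun o : Option ι => o.elim (a - ∑ i, m.1 i) m.1), by
          rw [mem_finsuppAntidiag]
          refine ⟨?_, Finset.subset_univ _⟩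
          rw [Fintype.sum_option]
          simp only [Finsupp.equivFunOnFinite_symm_apply_apply, Option.elim]
          exact Nat.sub_add_cancel m.2⟩
      invFun := fun m => ⟨Finsupp.equivFunOnFinite.symm (fun i => m.1 (some i)), by
          have h := m.2
          rw [mem_finsuppAntidiag, Fintype.sum_option] at h
          change ∑ i, _ ≤ a
          simp only [Finsupp.equivFunOnFinite_symm_apply_apply]
          omega⟩
      left_inv := fun m => by
        apply Subtype.ext
        ext i
        simp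
      right_inv := fun m => by
        apply Subtype.ext
        ext o
        have h := m.2
        rw [mem_finsuppAntidiag, Fintype.sum_option] at h
        cases o with
        | none => simp; omega
        | some i => simp }
  rw [Nat.card_congr e, Nat.card_eq_fintype_card, Fintype.card_coe,
    card_finsuppAntidiag_nat_eq_choose, card_univ, Fintype.card_option]
  rw [show Fintype.card ι + 1 + a - 1 = a + Fintype.card ι by omega]
  exact Nat.choose_symm_add

theorem box_finite (u a b : ℕ) : (box u a b).Finite := by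
  classical
  apply (Set.finite_Iic (Finsupp.equivFunOnFinite.symm (fun _ : Option (Fin u) => a + b))).subset
  rintro m ⟨hm1, hm2⟩ o
  rw [Finsupp.equivFunOnFinite_symm_apply_apply]
  cases o with
  | none => omega
  | some i =>
    have := Finset.single_le_sum (f := fun i => m (some i)) (fun _ _ => Nat.zero_le _) (mem_univ i)
    omega

theorem card_box_le (u a b : ℕ) : Nat.card (box u a b) ≤ (a + u).choose u * (b + 1) := by
  classical
  have := (simplex_finite (Fin u) a).to_subtype
  let e : box u a b → simplex (Fin u) a × Fin (b + 1) := fun m =>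
    (⟨Finsupp.equivFunOnFinite.symm (fun i => m.1 (some i)), by
      change ∑ i, _ ≤ a
      simp only [Finsupp.equivFunOnFinite_symm_apply_apply]
      exact m.2.1⟩, ⟨m.1 none, Nat.lt_succ_of_le m.2.2⟩)
  have he : Function.Injective e := by
    intro m m' h
    apply Subtype.ext
    ext o
    cases o with
    | none =>
      have h2 := congrArg (fun z => (z.2 : ℕ)) h
      exact h2
    | some i =>
      have h2 := congrArg (fun z => (z.1 : Fin u →₀ ℕ) i) h
      simpa [e] using h2
  have h1 := Nat.card_le_card_of_injective e he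
  rw [Nat.card_prod, card_simplex, Fintype.card_fin, Nat.card_fin] at h1
  exact h1

theorem finite_WW (u a b : ℕ) : Module.Finite ℚ (WW u a b) := by
  have := (box_finite u a b).to_subtype
  exact Module.Finite.of_basis (basisRestrictSupport ℚ (box u a b))

theorem finrank_WW (u a b : ℕ) : Module.finrank ℚ (WW u a b) = Nat.card (box u a b) := by
  have := (box_finite u a b).to_subtype
  have := Fintype.ofFinite (box u a b)
  unfold WW
  rw [Module.finrank_eq_card_basis (basisRestrictSupport ℚ (box u a b)), Nat.card_eq_fintype_card]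

theorem mem_WW {u a b : ℕ} {f : RR u} : f ∈ WW u a b ↔ ∀ m ∈ f.support, m ∈ box u a b :=
  Iff.rfl

theorem WW_mono {u a b a' b' : ℕ} (ha : a ≤ a') (hb : b ≤ b') : WW u a b ≤ WW u a' b' :=
  restrictSupport_mono _ (fun _ hm => ⟨hm.1.trans ha, hm.2.trans hb⟩)

theorem WW_mul {u a b a' b' : ℕ} {f g : RR u} (hf : f ∈ WW u a b) (hg : g ∈ WW u a' b') :
    f * g ∈ WW u (a + a') (b + b') := by
  classical
  rw [mem_WW] at *
  intro m hm
  obtain ⟨m1, h1, m2, h2, rfl⟩ := Finset.mem_add.1 (support_mul f g hm)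
  obtain ⟨h3, h4⟩ := hf m1 h1
  obtain ⟨h5, h6⟩ := hg m2 h2
  refine ⟨?_, ?_⟩
  · simp only [Finsupp.add_apply, Finset.sum_add_distrib]
    omega
  · simp only [Finsupp.add_apply]
    omega

/-- the filtration -/
noncomputable def VV (u A B S : ℕ) : Submodule ℚ (RR u) := WW u (A * S) (B * S)

theorem filt_VV (u : ℕ) {A B : ℕ} (hA : 1 ≤ A) (hB : 1 ≤ B) : Filt (VV u A B) where
  fin := fun S => finite_WW _ _ _
  mono := fun S T h => WW_mono (Nat.mul_le_mul_left _ h) (Nat.mul_le_mul_left _ h)
  mul := by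
    intro m n a b ha hb
    have := WW_mul ha hb
    unfold VV
    rw [Nat.mul_add, Nat.mul_add]
    exact this
  ex := by
    intro f
    refine ⟨f.support.sup (fun m => ∑ i, m (some i)) + f.support.sup (fun m => m none), ?_⟩
    unfold VV
    rw [mem_WW]
    intro m hm
    have h1 := Finset.le_sup (f := fun m : Option (Fin u) →₀ ℕ => ∑ i, m (some i)) hm
    have h2 := Finset.le_sup (f := fun m : Option (Fin u) →₀ ℕ => m none) hm
    refine ⟨?_, ?_⟩
    · nlinarith
    · nlinarith

/-- the dimension of a prime -/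
noncomputable def dm {u : ℕ} (p : Ideal (RR u)) : ℕ := (Algebra.trdeg ℚ (RR u ⧸ p)).toNat

theorem dm_cast {u : ℕ} (p : Ideal (RR u)) : (dm p : Cardinal) = Algebra.trdeg ℚ (RR u ⧸ p) :=
  Cardinal.cast_toNat_of_lt_aleph0 trdeg_lt_aleph0_of_finiteType

theorem dm_lt {u : ℕ} (q p : Ideal (RR u)) (hq : q.IsPrime) (hp : p.IsPrime) (h : q < p) :
    dm p < dm q := by
  have h1 := drop q p h
  rw [← dm_cast, ← dm_cast] at h1
  have h2 : dm p + 1 ≤ dm q := by exact_mod_cast h1
  omega

theorem dm_le {u : ℕ} (q p : Ideal (RR u)) (f : RR u) (hq : q.IsPrime) (_ : f ∉ q)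
    (hp : p ∈ (q ⊔ Ideal.span {f}).minimalPrimes) : dm q ≤ dm p + 1 := by
  have h1 := kpi q f p hp
  rw [← dm_cast, ← dm_cast] at h1
  exact_mod_cast h1

theorem dm_bot (u : ℕ) : dm (⊥ : Ideal (RR u)) = u + 1 := by
  unfold dm
  have h1 : Algebra.trdeg ℚ (RR u ⧸ (⊥ : Ideal (RR u))) = Algebra.trdeg ℚ (RR u) :=
    (AlgEquiv.quotientBot ℚ (RR u)).trdeg_eq
  rw [h1, MvPolynomial.trdeg_of_isDomain]
  simp

/-- **the count** -/
theorem count_primes (u A B : ℕ) (hA : 1 ≤ A) (hB : 1 ≤ B) (F : Set (RR u))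
    (hF : ∀ f ∈ F, f ∈ WW u A B) (PP : Finset (Ideal (RR u))) (e : ℕ)
    (hPP : ∀ p ∈ PP, p.IsPrime ∧ Ideal.span F ≤ p ∧ dm p = e) (he : e ≤ u + 1)
    (hmin : ∀ p ∈ PP, ∀ q : Ideal (RR u), q.IsPrime → Ideal.span F ≤ q → q ≤ p → q = p)
    (K : ℝ) (hK0 : 0 ≤ K)
    (hK : ∀ p ∈ PP, ∀ S : ℕ, K * (S : ℝ) ^ e / e.factorial ≤ hil (VV u A B) p S) :
    (PP.card : ℝ) * K ≤ (u + 1) * (A : ℝ) ^ u * B := by
  obtain ⟨j, hj⟩ : ∃ j, u + 1 = e + j := ⟨u + 1 - e, by omega⟩
  obtain ⟨c, hc⟩ := count (filt_VV u hA hB) dm dm_lt dm_le F (by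
    intro f hf
    have := hF f hf
    unfold VV
    rw [mul_one, mul_one]
    exact this) PP e hPP hmin K hK0 hK j ⊥ Ideal.isPrime_bot (by rw [dm_bot, hj]) PP
    (Finset.Subset.refl _) (fun p _ => bot_le)
  rw [← hj] at hc
  have hroot : ∀ S : ℕ, (hil (VV u A B) ⊥ (S + c) : ℝ) ≤
      ((A * (S + c) + u : ℕ) : ℝ) ^ u / u.factorial * ((B * (S + c) + 1 : ℕ) : ℝ) := by
    intro S
    have h1 : hil (VV u A B) ⊥ (S + c) ≤ Module.finrank ℚ (VV u A B (S + c)) := by
      unfold hil
      have := (filt_VV u hA hB).fin (S + c)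
      exact Submodule.finrank_map_le _ _
    have h2 : Module.finrank ℚ (VV u A B (S + c)) ≤
        (A * (S + c) + u).choose u * (B * (S + c) + 1) := by
      unfold VV
      rw [finrank_WW]
      exact card_box_le _ _ _
    have h3 : ((hil (VV u A B) ⊥ (S + c) : ℕ) : ℝ) ≤
        ((A * (S + c) + u).choose u : ℝ) * ((B * (S + c) + 1 : ℕ) : ℝ) := by
      exact_mod_cast h1.trans h2
    refine h3.trans ?_
    gcongr
    exact Nat.choose_le_pow_div _ _
  -- the limit
  have hlim : Tendsto (fun S : ℕ => (((A * (S + c) + u : ℕ) : ℝ) / S) ^ u / u.factorial *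
      (((B * (S + c) + 1 : ℕ) : ℝ) / S)) atTop (nhds ((A : ℝ) ^ u / u.factorial * B)) := by
    have h1 : ∀ (a b : ℕ), Tendsto (fun S : ℕ => ((a * (S + c) + b : ℕ) : ℝ) / S) atTop
        (nhds (a : ℝ)) := by
      intro a b
      have h2 : Tendsto (fun S : ℕ => (a : ℝ) + ((a * c + b : ℕ) : ℝ) / S) atTop
          (nhds ((a : ℝ) + 0)) := by
        apply Tendsto.add tendsto_const_nhds
        exact tendsto_const_div_atTop_nhds_zero_nat _
      rw [add_zero] at h2
      refine h2.congr' ?_
      filter_upwards [eventually_gt_atTop 0] with S hS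
      have : (S : ℝ) ≠ 0 := by positivity
      field_simp
      push_cast
      ring
    exact (((h1 A u).pow u).div_const _).mul (h1 B 1)
  have hle : ∀ᶠ S : ℕ in atTop, (PP.card : ℝ) * K / (u + 1).factorial ≤
      (((A * (S + c) + u : ℕ) : ℝ) / S) ^ u / u.factorial *
      (((B * (S + c) + 1 : ℕ) : ℝ) / S) := by
    filter_upwards [eventually_gt_atTop 0] with S hS
    have hS' : (0 : ℝ) < S := by exact_mod_cast hS
    have h1 := (hc S).trans (hroot S)
    have h2 : (PP.card : ℝ) * K / (u + 1).factorial =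
        ((PP.card : ℝ) * K * (S : ℝ) ^ (u + 1) / (u + 1).factorial) / (S : ℝ) ^ (u + 1) := by
      field_simp
    have h3 : (((A * (S + c) + u : ℕ) : ℝ) / S) ^ u / u.factorial *
      (((B * (S + c) + 1 : ℕ) : ℝ) / S) =
        (((A * (S + c) + u : ℕ) : ℝ) ^ u / u.factorial * ((B * (S + c) + 1 : ℕ) : ℝ)) /
          (S : ℝ) ^ (u + 1) := by
      rw [div_pow, pow_succ]
      field_simp
    rw [h2, h3]
    gcongr
  have h4 := ge_of_tendsto hlim hle
  have h5 : (((u + 1).factorial : ℕ) : ℝ) = (u + 1) * (u.factorial : ℝ) := by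
    rw [Nat.factorial_succ]; push_cast; ring
  rw [h5, div_le_iff₀ (by positivity)] at h4
  have h6 : (A : ℝ) ^ u / u.factorial * B * ((u + 1) * (u.factorial : ℝ)) =
      (u + 1) * (A : ℝ) ^ u * B := by
    field_simp
  rw [h6] at h4
  exact h4

end Pool.Agent.H99.RD
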